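import Pool.Agent.Helper74_RL.Stmts

/-!
# PSI: charts of the blow-ups (MP_62da59_gt)
-/

noncomputable section

open scoped ContDiff Topology ENNReal RealInnerProductSpace BoundedContinuousFunction
set_option maxSynthPendingDepth 3
open Set Metric

namespace Pool.Agent.RLim.H4

open Pool.Agent.RLim Pool.Agent.RF
open Pool.Agent.SecondKind (mat eqE)

/-- a criterion for open embeddings of subsets -/
theorem isOpenEmbedding_of {X M : Type} [TopologicalSpace X] [TopologicalSpace M] {U : Set X}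
    {f : X → M} {R : Set M} {g : M → X} (hf : ContinuousOn f U) (hR : IsOpen R)
    (hg : ContinuousOn g R) (h1 : ∀ q ∈ U, f q ∈ R ∧ g (f q) = q)
    (h2 : ∀ p ∈ R, g p ∈ U ∧ f (g p) = p) : Topology.IsOpenEmbedding (fun q : U => f q) := by
  refine Topology.IsOpenEmbedding.of_continuous_injective_isOpenMap
    (continuousOn_iff_continuous_domRestrict.1 hf) ?_ ?_
  · intro q q' h
    have h' : f q = f q' := h
    ext
    rw [← (h1 q q.2).2, h', (h1 q' q'.2).2]
  · intro V hV
    obtain ⟨V', hV', rfl⟩ := isOpen_induced_iff.1 hV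
    have : (fun q : U => f q) '' (Subtype.val ⁻¹' V') = R ∩ g ⁻¹' V' := by
      ext p
      constructor
      · rintro ⟨q, hq, rfl⟩
        exact ⟨(h1 q q.2).1, by
          show g (f q) ∈ V'
          rw [(h1 q q.2).2]
          exact hq⟩
      · rintro ⟨hp, hp'⟩
        exact ⟨⟨g p, (h2 p hp).1⟩, hp', (h2 p hp).2⟩
    rw [this]
    exact hg.isOpen_inter_preimage hR hV'

variable (D : MetricData)

theorem isOpen_U0 (j : ℕ) : IsOpen (U0 D j) := by
  have : U0 D j = ⋂ k ∈ (Finset.range j : Finset ℕ), {D.P k}ᶜ := by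
    ext X
    simp [U0]
  rw [this]
  exact isOpen_biInter_finset fun k _ => isOpen_compl_singleton

theorem dist_centres {k l : ℕ} (h : k ≠ l) : 32 * (D.w k + D.w l) ≤ ‖D.P k - D.P l‖ := by
  have h1 := D.disj k l h
  have h2 := D.w_le k
  have h3 := D.w_le l
  rw [dist_eq_norm] at h1
  linarith

/-- a point near `P k` is not near `P l` -/
theorem far {k l : ℕ} (h : l ≠ k) {X : E4} (hX : ‖X - D.P k‖ < 8 * D.w k) :
    24 * D.w k + 32 * D.w l < ‖X - D.P l‖ := by
  have h1 := dist_centres D h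
  have h2 : ‖D.P l - D.P k‖ ≤ ‖X - D.P k‖ + ‖X - D.P l‖ := by
    have := norm_sub_le (X - D.P k) (X - D.P l)
    have e : (X - D.P k) - (X - D.P l) = D.P l - D.P k := by abel
    rwa [e] at this
  have := D.w_pos k
  linarith

theorem far_ne {k l : ℕ} (h : l ≠ k) {X : E4} (hX : ‖X - D.P k‖ < 8 * D.w k) : X ≠ D.P l := by
  have h1 := far D h hX
  intro h2
  rw [h2, sub_self, norm_zero] at h1
  have := D.w_pos k
  have := D.w_pos l
  linarith

theorem second_of_ne {j : ℕ} (p : Bl D j) (k : Fin j) (h : p.1.1 ≠ D.P k) :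
    p.1.2 k = D.w k • hd (p.1.1 - D.P k) := by
  have h1 := (p.2 k).2
  have h2 : ‖p.1.1 - D.P k‖ ^ 2 ≠ 0 := by
    have : p.1.1 - D.P k ≠ 0 := sub_ne_zero.2 h
    positivity
  rw [← sq_smul_hd, smul_comm (D.w k)] at h1
  exact smul_right_injective _ h2 h1

theorem psi0_eq {j : ℕ} (p : Bl D j) (h : p.1.1 ∈ U0 D j) : psi0 D j p.1.1 = p := by
  refine Subtype.ext (Prod.ext rfl (funext fun k => ?_))
  exact (second_of_ne D p k (h k k.2)).symm

theorem continuous_hq : Continuous hq := by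
  unfold hq
  refine (PiLp.continuous_toLp 2 _).comp (continuous_pi fun i => ?_)
  fin_cases i <;> simp <;> fun_prop

theorem continuousAt_hd {X : E4} (hX : X ≠ 0) : ContinuousAt hd X := by
  have h0 : ContinuousAt (fun X : E4 => (‖X‖ ^ 2)⁻¹) X :=
    ContinuousAt.inv₀ (f := fun X : E4 => ‖X‖ ^ 2) (by fun_prop) (by positivity)
  have h1 : ContinuousAt (fun X : E4 => (‖X‖ ^ 2)⁻¹ • hq X) X :=
    ContinuousAt.smul h0 continuous_hq.continuousAt
  refine h1.congr ?_
  filter_upwards [isOpen_ne.mem_nhds hX] with Y hY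
  rw [hd_of_ne hY, hopf_eq]

theorem continuous_sg (i : Bool) : Continuous (sg i) := by
  unfold sg
  have h0 : Continuous (fun q : E4 => (1 + q 2 ^ 2 + q 3 ^ 2)⁻¹) :=
    Continuous.inv₀ (f := fun q : E4 => 1 + q 2 ^ 2 + q 3 ^ 2) (by fun_prop)
      fun q => by positivity
  refine Continuous.smul h0 ?_
  cases i
  · simp only [Bool.false_eq_true, if_false]
    refine (PiLp.continuous_toLp 2 _).comp (continuous_pi fun i => ?_)
    fin_cases i <;> simp <;> fun_prop
  · simp only [if_true]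
    refine (PiLp.continuous_toLp 2 _).comp (continuous_pi fun i => ?_)
    fin_cases i <;> simp <;> fun_prop

theorem continuous_Phi0 (i : Bool) : Continuous (Phi0 i) := by
  unfold Phi0
  cases i
  · simp only [Bool.false_eq_true, if_false]
    refine (PiLp.continuous_toLp 2 _).comp (continuous_pi fun i => ?_)
    fin_cases i <;> simp <;> fun_prop
  · simp only [if_true]
    refine (PiLp.continuous_toLp 2 _).comp (continuous_pi fun i => ?_)
    fin_cases i <;> simp <;> fun_prop

theorem continuous_cm (k : ℕ) (i : Bool) : Continuous (cm D k i) := by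
  have h := continuous_Phi0 i
  unfold cm
  fun_prop

theorem cm_sub (k : ℕ) (i : Bool) (q : E4) : cm D k i q - D.P k = D.w k • Phi0 i q := by
  simp [cm]

theorem norm_cm_sub (k : ℕ) (i : Bool) (q : E4) :
    ‖cm D k i q - D.P k‖ = D.w k * ‖Phi0 i q‖ := by
  rw [cm_sub, norm_smul, Real.norm_of_nonneg (D.w_pos k).le]

theorem mem_U1_iff {i : Bool} {q : E4} : q ∈ U1 ↔ ‖Phi0 i q‖ < 8 := by
  have h : (64 : ℝ) = 8 ^ 2 := by norm_num
  unfold U1
  rw [mem_ofPred_eq, ← norm_Phi0 i q, h]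
  exact pow_lt_pow_iff_left₀ (norm_nonneg _) (by norm_num) two_ne_zero

theorem near_of_mem {k : ℕ} {i : Bool} {q : E4} (h : q ∈ U1) :
    ‖cm D k i q - D.P k‖ < 8 * D.w k := by
  rw [norm_cm_sub, mul_comm 8]
  exact mul_lt_mul_of_pos_left (mem_U1_iff.1 h) (D.w_pos k)

theorem continuousOn_psi0 (j : ℕ) : ContinuousOn (psi0 D j) (U0 D j) := by
  intro X hX
  refine (Topology.IsInducing.subtypeVal.continuousAt_iff.2 ?_).continuousWithinAt
  refine continuousAt_id.prodMk (continuousAt_pi.2 fun k => ?_)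
  have h1 : ContinuousAt (fun X : E4 => hd (X - D.P k)) X :=
    ContinuousAt.comp (f := fun X : E4 => X - D.P k) (g := hd)
      (continuousAt_hd (sub_ne_zero.2 (hX k k.2))) (by fun_prop)
  exact h1.const_smul (D.w k)

theorem continuousOn_psi1 (j : ℕ) (k : Fin j) (i : Bool) : ContinuousOn (psi1 D j k i) U1 := by
  intro q hq
  refine (Topology.IsInducing.subtypeVal.continuousAt_iff.2 ?_).continuousWithinAt
  refine ContinuousAt.prodMk (continuous_cm D k i).continuousAt (continuousAt_pi.2 fun l => ?_)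
  show ContinuousAt (fun q => if l = k then D.w k • sg i q else D.w l • hd (cm D k i q - D.P l)) q
  by_cases h : l = k
  · simp only [if_pos h]
    exact (continuous_sg i).continuousAt.const_smul (D.w k)
  · simp only [if_neg h]
    have h2 : (l : ℕ) ≠ k := fun h' => h (Fin.ext h')
    have h3 : ContinuousAt (fun q => cm D k i q - D.P l) q :=
      ((continuous_cm D k i).sub continuous_const).continuousAt
    have h1 : ContinuousAt (fun q : E4 => hd (cm D k i q - D.P l)) q :=
      ContinuousAt.comp (f := fun q : E4 => cm D k i q - D.P l) (g := hd)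
        (continuousAt_hd (sub_ne_zero.2 (far_ne D h2 (near_of_mem D hq)))) h3
    exact h1.const_smul (D.w l)

/-- the coordinates of a point with given direction parameter -/
def lft (i : Bool) (q Y : E4) : E4 := if i then WithLp.toLp 2 ![Y 2, Y 3, q 2, q 3]
  else WithLp.toLp 2 ![Y 0, Y 1, q 2, q 3]

theorem lft_2 (i : Bool) (q Y : E4) : lft i q Y 2 = q 2 := by cases i <;> rfl

theorem lft_3 (i : Bool) (q Y : E4) : lft i q Y 3 = q 3 := by cases i <;> rfl

theorem sg_congr (i : Bool) {q q' : E4} (h2 : q' 2 = q 2) (h3 : q' 3 = q 3) :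
    sg i q' = sg i q := by
  unfold sg
  rw [h2, h3]

theorem Phi0_lft {i : Bool} {q Y : E4} (h : ‖Y‖ ^ 2 • sg i q = hq Y) : Phi0 i (lft i q Y) = Y := by
  have hS : (0:ℝ) < 1 + q 2 ^ 2 + q 3 ^ 2 := by positivity
  have hS' : (1 + q 2 ^ 2 + q 3 ^ 2 : ℝ) ≠ 0 := hS.ne'
  have key : ∀ A B C E a b : ℝ, 0 < 1 + a ^ 2 + b ^ 2 →
      (A ^ 2 + B ^ 2 + C ^ 2 + E ^ 2) * a = (1 + a ^ 2 + b ^ 2) * (A * C + B * E) →
      (A ^ 2 + B ^ 2 + C ^ 2 + E ^ 2) * b = (1 + a ^ 2 + b ^ 2) * (A * E - B * C) →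
      (A ^ 2 + B ^ 2 + C ^ 2 + E ^ 2) * (1 - (a ^ 2 + b ^ 2)) =
        (1 + a ^ 2 + b ^ 2) * (A ^ 2 + B ^ 2 - C ^ 2 - E ^ 2) →
      A * a - B * b = C ∧ A * b + B * a = E := by
    intro A B C E a b hp h1 h2 h3
    have h4 : C ^ 2 + E ^ 2 = (a ^ 2 + b ^ 2) * (A ^ 2 + B ^ 2) := by linarith
    have h5 : (1 + a ^ 2 + b ^ 2) * ((A * a - B * b - C) ^ 2 + (A * b + B * a - E) ^ 2) = 0 := by
      linear_combination (1 + a ^ 2 + b ^ 2) * h4 + 2 * a * h1 + 2 * b * h2 -
        2 * (a ^ 2 + b ^ 2) * h4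
    have h6 : (A * a - B * b - C) ^ 2 + (A * b + B * a - E) ^ 2 = 0 :=
      (mul_eq_zero.1 h5).resolve_left hp.ne'
    constructor <;> nlinarith [sq_nonneg (A * a - B * b - C), sq_nonneg (A * b + B * a - E)]
  have e0 := congrArg (fun v : E3 => v 0) h
  have e1 := congrArg (fun v : E3 => v 1) h
  have e2 := congrArg (fun v : E3 => v 2) h
  rw [norm_sq4] at e0 e1 e2
  cases i
  · simp [sg] at e0 e1 e2
    field_simp at e0 e1 e2
    obtain ⟨k1, k2⟩ := key (Y 0) (Y 1) (Y 2) (Y 3) (q 2) (q 3) hS (by linarith) (by linarith)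
      (by linarith)
    ext t
    fin_cases t
    · rfl
    · rfl
    · exact k1
    · exact k2
  · simp [sg] at e0 e1 e2
    field_simp at e0 e1 e2
    obtain ⟨k1, k2⟩ := key (Y 2) (Y 3) (Y 0) (Y 1) (q 2) (q 3) hS (by linarith) (by linarith)
      (by linarith)
    ext t
    fin_cases t
    · exact k1
    · exact k2
    · rfl
    · rfl

theorem psi1_lft {j : ℕ} (p : Bl D j) (k : Fin j) (i : Bool) (q : E4)
    (h : D.w k • sg i q = p.1.2 k) (hn : ‖p.1.1 - D.P k‖ < 8 * D.w k) :
    lft i q ((D.w k)⁻¹ • (p.1.1 - D.P k)) ∈ U1 ∧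
      psi1 D j k i (lft i q ((D.w k)⁻¹ • (p.1.1 - D.P k))) = p := by
  have hw := D.w_pos k
  set Y : E4 := (D.w k)⁻¹ • (p.1.1 - D.P k) with hY
  have hXY : p.1.1 - D.P k = D.w k • Y := by
    rw [hY, smul_smul, mul_inv_cancel₀ hw.ne', one_smul]
  have h1 : ‖Y‖ ^ 2 • sg i q = hq Y := by
    have h2 := (p.2 k).2
    rw [← h, hXY, norm_smul, hq_smul, Real.norm_of_nonneg hw.le, smul_smul, smul_smul, mul_pow] at h2
    have h3 : (D.w k * D.w k ^ 2) • (‖Y‖ ^ 2 • sg i q) = (D.w k * D.w k ^ 2) • hq Y := by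
      rw [← h2, smul_smul]
      congr 1
      ring
    exact smul_right_injective _ (by positivity) h3
  have h2 := Phi0_lft h1
  refine ⟨?_, ?_⟩
  · rw [mem_U1_iff (i := i), h2, hY, norm_smul, norm_inv, Real.norm_of_nonneg hw.le,
      inv_mul_lt_iff₀ hw]
    linarith
  · have h3 : cm D k i (lft i q Y) = p.1.1 := by
      unfold cm
      rw [h2, ← hXY]
      abel
    refine Subtype.ext (Prod.ext h3 (funext fun l => ?_))
    show (if l = k then D.w k • sg i (lft i q Y) else D.w l • hd (cm D k i (lft i q Y) - D.P l)) = _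
    by_cases hl : l = k
    · rw [if_pos hl, hl, ← h, sg_congr i (lft_2 i q Y) (lft_3 i q Y)]
    · have hl' : (l : ℕ) ≠ k := fun h' => hl (Fin.ext h')
      rw [if_neg hl, h3]
      exact (second_of_ne D p l (far_ne D hl' hn)).symm

/-- the direction parameter of a vector -/
def par (i : Bool) (v : E3) : E4 := if i then
    WithLp.toLp 2 ![0, 0, v 0 / (1 - v 2), v 1 / (1 - v 2)]
  else WithLp.toLp 2 ![0, 0, v 0 / (1 + v 2), -(v 1 / (1 + v 2))]

/-- the third component which is not allowed in the chart `i` -/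
def pol (i : Bool) : ℝ := if i then 1 else -1

theorem sg_par {i : Bool} {v : E3} (hv : ‖v‖ = 1) (h : v 2 ≠ pol i) : sg i (par i v) = v := by
  have h1 : v 0 ^ 2 + v 1 ^ 2 + v 2 ^ 2 = 1 := by rw [← norm_sq3, hv, one_pow]
  cases i
  · have h2 : 1 + v 2 ≠ 0 := by
      intro h3; apply h; simp [pol]; linarith
    have h3 : 1 + (v 0 / (1 + v 2)) ^ 2 + (-(v 1 / (1 + v 2))) ^ 2 = 2 / (1 + v 2) := by
      field_simp
      linear_combination h1
    ext t
    fin_cases t
    · simp [sg, par] at h3 ⊢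
      rw [h3]
      field_simp
    · simp [sg, par] at h3 ⊢
      rw [h3]
      field_simp
    · simp [sg, par] at h3 ⊢
      rw [h3]
      field_simp
      linear_combination -h1
  · have h2 : 1 - v 2 ≠ 0 := by
      intro h3; apply h; simp [pol]; linarith
    have h3 : 1 + (v 0 / (1 - v 2)) ^ 2 + (v 1 / (1 - v 2)) ^ 2 = 2 / (1 - v 2) := by
      field_simp
      linear_combination h1
    ext t
    fin_cases t
    · simp [sg, par] at h3 ⊢
      rw [h3]
      field_simp
    · simp [sg, par] at h3 ⊢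
      rw [h3]
      field_simp
    · simp [sg, par] at h3 ⊢
      rw [h3]
      field_simp
      linear_combination h1

theorem par_sg (i : Bool) (q : E4) : par i (sg i q) 2 = q 2 ∧ par i (sg i q) 3 = q 3 ∧
    sg i q 2 ≠ pol i := by
  have hS : (1 + q 2 ^ 2 + q 3 ^ 2 : ℝ) ≠ 0 := by positivity
  cases i
  · refine ⟨?_, ?_, ?_⟩
    · simp [par, sg]
      field_simp
      ring
    · simp [par, sg]
      field_simp
      ring
    · simp [pol, sg]
      intro h
      field_simp at h
      linarith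
  · refine ⟨?_, ?_, ?_⟩
    · simp [par, sg]
      field_simp
      ring
    · simp [par, sg]
      field_simp
      ring
    · simp [pol, sg]
      intro h
      field_simp at h
      linarith

theorem continuousAt_par {i : Bool} {v : E3} (h : v 2 ≠ pol i) : ContinuousAt (par i) v := by
  cases i
  · have h2 : 1 + v 2 ≠ 0 := by
      intro h3; apply h; simp [pol]; linarith
    have hA : ContinuousAt (fun v : E3 => v 0 / (1 + v 2)) v :=
      ContinuousAt.div (f := fun v : E3 => v 0) (g := fun v : E3 => 1 + v 2)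
        (by fun_prop) (by fun_prop) h2
    have hB : ContinuousAt (fun v : E3 => -(v 1 / (1 + v 2))) v :=
      (ContinuousAt.div (f := fun v : E3 => v 1) (g := fun v : E3 => 1 + v 2)
        (by fun_prop) (by fun_prop) h2).neg
    have e : par false = fun v : E3 => (WithLp.toLp 2 ![0, 0, v 0 / (1 + v 2),
        -(v 1 / (1 + v 2))] : E4) := by
      ext v
      simp [par]
    rw [e]
    refine (PiLp.continuous_toLp 2 _).continuousAt.comp (continuousAt_pi.2 fun t => ?_)
    fin_cases t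
    · simpa using continuousAt_const
    · simpa using continuousAt_const
    · simpa using hA
    · simpa using hB
  · have h2 : 1 - v 2 ≠ 0 := by
      intro h3; apply h; simp [pol]; linarith
    have hA : ContinuousAt (fun v : E3 => v 0 / (1 - v 2)) v :=
      ContinuousAt.div (f := fun v : E3 => v 0) (g := fun v : E3 => 1 - v 2)
        (by fun_prop) (by fun_prop) h2
    have hB : ContinuousAt (fun v : E3 => v 1 / (1 - v 2)) v :=
      ContinuousAt.div (f := fun v : E3 => v 1) (g := fun v : E3 => 1 - v 2)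
        (by fun_prop) (by fun_prop) h2
    have e : par true = fun v : E3 => (WithLp.toLp 2 ![0, 0, v 0 / (1 - v 2),
        v 1 / (1 - v 2)] : E4) := by
      ext v
      simp [par]
    rw [e]
    refine (PiLp.continuous_toLp 2 _).continuousAt.comp (continuousAt_pi.2 fun t => ?_)
    fin_cases t
    · simpa using continuousAt_const
    · simpa using continuousAt_const
    · simpa using hA
    · simpa using hB

theorem continuous_lft (i : Bool) : Continuous (fun x : E4 × E4 => lft i x.1 x.2) := by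
  unfold lft
  cases i
  · simp only [Bool.false_eq_true, if_false]
    refine (PiLp.continuous_toLp 2 _).comp (continuous_pi fun i => ?_)
    fin_cases i <;> simp <;> fun_prop
  · simp only [if_true]
    refine (PiLp.continuous_toLp 2 _).comp (continuous_pi fun i => ?_)
    fin_cases i <;> simp <;> fun_prop

theorem lft_self (i : Bool) (q r : E4) (h2 : r 2 = q 2) (h3 : r 3 = q 3) :
    lft i r (Phi0 i q) = q := by
  cases i
  · ext t
    fin_cases t
    · simp [lft, Phi0]
    · simp [lft, Phi0]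
    · simpa [lft] using h2
    · simpa [lft] using h3
  · ext t
    fin_cases t
    · simp [lft, Phi0]
    · simp [lft, Phi0]
    · simpa [lft] using h2
    · simpa [lft] using h3

theorem openEmb0 (j : ℕ) : Topology.IsOpenEmbedding (fun X : U0 D j => psi0 D j X) := by
  refine isOpenEmbedding_of (R := {p : Bl D j | p.1.1 ∈ U0 D j}) (g := fun p => p.1.1)
    (continuousOn_psi0 D j) ?_ ?_ ?_ ?_
  · exact (isOpen_U0 D j).preimage (continuous_fst.comp continuous_subtype_val)
  · exact (continuous_fst.comp continuous_subtype_val).continuousOn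
  · intro X hX
    exact ⟨hX, rfl⟩
  · intro p hp
    exact ⟨hp, psi0_eq D p hp⟩

theorem openEmb1 (j : ℕ) (k : Fin j) (i : Bool) :
    Topology.IsOpenEmbedding (fun q : U1 => psi1 D j k i q) := by
  have hw := D.w_pos k
  have c1 : Continuous (fun p : Bl D j => p.1.1) := continuous_fst.comp continuous_subtype_val
  have c2 : Continuous (fun p : Bl D j => p.1.2 k) :=
    (continuous_apply k).comp (continuous_snd.comp continuous_subtype_val)
  have c3 : Continuous (fun p : Bl D j => ((D.w k)⁻¹ • p.1.2 k) 2) := by fun_prop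
  have hn : ∀ p : Bl D j, ‖(D.w k)⁻¹ • p.1.2 k‖ = 1 := fun p => by
    rw [norm_smul, (p.2 k).1, norm_inv, Real.norm_of_nonneg hw.le, inv_mul_cancel₀ hw.ne']
  refine isOpenEmbedding_of (R := {p : Bl D j | ‖p.1.1 - D.P k‖ < 8 * D.w k} ∩
      {p | ((D.w k)⁻¹ • p.1.2 k) 2 ≠ pol i})
    (g := fun p => lft i (par i ((D.w k)⁻¹ • p.1.2 k)) ((D.w k)⁻¹ • (p.1.1 - D.P k)))
    (continuousOn_psi1 D j k i) ?_ ?_ ?_ ?_
  · refine IsOpen.inter (isOpen_lt (by fun_prop) continuous_const) ?_
    exact isOpen_ne_fun c3 continuous_const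
  · intro p hp
    refine ContinuousAt.continuousWithinAt ?_
    have h1 : ContinuousAt (fun p : Bl D j => par i ((D.w k)⁻¹ • p.1.2 k)) p :=
      ContinuousAt.comp (f := fun p : Bl D j => (D.w k)⁻¹ • p.1.2 k) (g := par i)
        (continuousAt_par hp.2) (by fun_prop)
    have h2 : ContinuousAt (fun p : Bl D j => (D.w k)⁻¹ • (p.1.1 - D.P k)) p := by fun_prop
    exact ContinuousAt.comp (f := fun p : Bl D j => (par i ((D.w k)⁻¹ • p.1.2 k),
      (D.w k)⁻¹ • (p.1.1 - D.P k))) (g := fun x : E4 × E4 => lft i x.1 x.2)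
      (continuous_lft i).continuousAt (h1.prodMk h2)
  · intro q hq
    have e1 : (psi1 D j k i q).1.1 = cm D k i q := rfl
    have e2 : (psi1 D j k i q).1.2 k = D.w k • sg i q := if_pos rfl
    have e3 : (D.w k)⁻¹ • (psi1 D j k i q).1.2 k = sg i q := by
      rw [e2, smul_smul, inv_mul_cancel₀ hw.ne', one_smul]
    obtain ⟨p1, p2, p3⟩ := par_sg i q
    refine ⟨⟨?_, ?_⟩, ?_⟩
    · show ‖(psi1 D j k i q).1.1 - D.P k‖ < 8 * D.w k
      rw [e1]
      exact near_of_mem D hq
    · show ((D.w k)⁻¹ • (psi1 D j k i q).1.2 k) 2 ≠ pol i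
      rw [e3]
      exact p3
    · show lft i (par i ((D.w k)⁻¹ • (psi1 D j k i q).1.2 k))
        ((D.w k)⁻¹ • ((psi1 D j k i q).1.1 - D.P k)) = q
      rw [e3, e1, cm_sub, smul_smul, inv_mul_cancel₀ hw.ne', one_smul]
      exact lft_self i q _ p1 p2
  · rintro p ⟨hp1, hp2⟩
    refine psi1_lft D p k i _ ?_ hp1
    rw [sg_par (hn p) hp2, smul_smul, mul_inv_cancel₀ hw.ne', one_smul]

theorem cm_mem {j : ℕ} (k : Fin j) (i : Bool) {q : E4} (hq : q ∈ U1) (h : q 0 ≠ 0 ∨ q 1 ≠ 0) :
    cm D k i q ∈ U0 D j ∧ psi0 D j (cm D k i q) = psi1 D j k i q := by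
  have hw := D.w_pos k
  have h0 : Phi0 i q ≠ 0 := by
    intro h'
    obtain ⟨h1, h2⟩ := Phi0_eq_zero.1 h'
    rcases h with h | h
    · exact h h1
    · exact h h2
  refine ⟨fun l hl => ?_, ?_⟩
  · by_cases hlk : l = k
    · rw [hlk]
      refine sub_ne_zero.1 ?_
      rw [cm_sub]
      exact smul_ne_zero hw.ne' h0
    · exact far_ne D hlk (near_of_mem D hq)
  · refine Subtype.ext (Prod.ext rfl (funext fun l => ?_))
    show D.w l • hd (cm D k i q - D.P l) =
      if l = k then D.w k • sg i q else D.w l • hd (cm D k i q - D.P l)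
    by_cases hl : l = k
    · rw [if_pos hl, hl, cm_sub, hd_of_ne (smul_ne_zero hw.ne' h0), hopf_smul hw.ne' h0,
        hopf_Phi0 h0]
    · rw [if_neg hl]

theorem cover (j : ℕ) (p : Bl D j) : ∃ C ∈ atl D j, p ∈ C.ψ '' C.U := by
  by_cases h : p.1.1 ∈ U0 D j
  · refine ⟨_, Or.inl rfl, eqE 4 p.1.1, ?_, ?_⟩
    · simpa [mkC] using h
    · simpa [mkC] using psi0_eq D p h
  · unfold U0 at h
    rw [mem_ofPred_eq] at h
    push Not at h
    obtain ⟨k, hk, hP⟩ := h
    have hw := D.w_pos k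
    have hn : ‖(D.w k)⁻¹ • p.1.2 ⟨k, hk⟩‖ = 1 := by
      rw [norm_smul, (p.2 ⟨k, hk⟩).1, norm_inv, Real.norm_of_nonneg hw.le,
        inv_mul_cancel₀ hw.ne']
    obtain ⟨i, hi⟩ : ∃ i, ((D.w k)⁻¹ • p.1.2 ⟨k, hk⟩) 2 ≠ pol i := by
      by_cases h1 : ((D.w k)⁻¹ • p.1.2 ⟨k, hk⟩) 2 = pol true
      · refine ⟨false, ?_⟩
        rw [h1]
        norm_num [pol]
      · exact ⟨true, h1⟩
    obtain ⟨h1, h2⟩ := psi1_lft D p ⟨k, hk⟩ i (par i ((D.w k)⁻¹ • p.1.2 ⟨k, hk⟩))
      (by rw [sg_par hn hi, smul_smul, mul_inv_cancel₀ hw.ne', one_smul]) (by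
        show ‖p.1.1 - D.P k‖ < 8 * D.w k
        rw [hP, sub_self, norm_zero]
        positivity)
    refine ⟨_, Or.inr ⟨⟨k, hk⟩, i, rfl⟩, eqE 4 (lft i (par i ((D.w k)⁻¹ • p.1.2 ⟨k, hk⟩))
      ((D.w k)⁻¹ • (p.1.1 - D.P k))), ?_, ?_⟩
    · simpa [mkC] using h1
    · simpa [mkC] using h2

/-- **PSI** -/
theorem psi : PsiStmt := fun D j =>
  ⟨openEmb0 D j, openEmb1 D j, fun p h => psi0_eq D p h,
    fun p k i q h hn => ⟨_, (psi1_lft D p k i q h hn).1, lft_2 i q _, lft_3 i q _,
      (psi1_lft D p k i q h hn).2⟩,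
    fun k i _ hq h => cm_mem D k i hq h, cover D j⟩

end Pool.Agent.RLim.H4
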