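import Pool.Agent.Helper4_RLB.Psi

/-!
# UB: short curves in the blow-ups (MP_62da59_gt)
-/

noncomputable section

open scoped ContDiff Topology ENNReal RealInnerProductSpace BoundedContinuousFunction
set_option maxSynthPendingDepth 3
open Set Metric

namespace Pool.Agent.RLim.H4

open Pool.Agent.RLim Pool.Agent.RF

variable (D : MetricData)

theorem dist_fst_le {j : ℕ} (x y : Bl D j) : ‖x.1.1 - y.1.1‖ ≤ dist x y := by
  rw [← dist_eq_norm, Subtype.dist_eq, Prod.dist_eq]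
  exact le_max_left _ _

theorem dist_snd_le {j : ℕ} (x y : Bl D j) (l : Fin j) : ‖x.1.2 l - y.1.2 l‖ ≤ dist x y := by
  rw [← dist_eq_norm, Subtype.dist_eq, Prod.dist_eq]
  exact (dist_le_pi_dist x.1.2 y.1.2 l).trans (le_max_right _ _)

theorem dist_le_of {j : ℕ} (x y : Bl D j) {r : ℝ} (hr : 0 ≤ r) (h1 : ‖x.1.1 - y.1.1‖ ≤ r)
    (h2 : ∀ l, ‖x.1.2 l - y.1.2 l‖ ≤ r) : dist x y ≤ r := by
  rw [Subtype.dist_eq, Prod.dist_eq]
  refine max_le ?_ ?_
  · rw [dist_eq_norm]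
    exact h1
  · rw [dist_pi_le_iff hr]
    intro l
    rw [dist_eq_norm]
    exact h2 l

/-- a point of a segment on a sphere -/
theorem exists_sphere {X Y P : E4} {r : ℝ} (hX : ‖X - P‖ ≤ r) (hY : r ≤ ‖Y - P‖) :
    ∃ Z : E4, ‖Z - P‖ = r ∧ ‖X - Z‖ ≤ ‖X - Y‖ ∧ ‖Y - Z‖ ≤ ‖X - Y‖ := by
  have hc : ContinuousOn (fun t : ℝ => ‖X + t • (Y - X) - P‖) (Icc 0 1) := by fun_prop
  obtain ⟨t, ht, h⟩ := intermediate_value_Icc zero_le_one hc (show r ∈ Icc _ _ from
    ⟨by simpa using hX, by simpa using hY⟩)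
  refine ⟨X + t • (Y - X), h, ?_, ?_⟩
  · have e : X - (X + t • (Y - X)) = t • (X - Y) := by module
    rw [e, norm_smul, Real.norm_of_nonneg ht.1]
    exact mul_le_of_le_one_left (norm_nonneg _) ht.2
  · have e : Y - (X + t • (Y - X)) = (t - 1) • (X - Y) := by module
    rw [e, norm_smul, Real.norm_eq_abs, abs_sub_comm, abs_of_nonneg (by linarith [ht.2])]
    exact mul_le_of_le_one_left (norm_nonneg _) (by linarith [ht.1])

theorem exit (hHPL : HplStmt) (hPSI : PsiStmt) {C : ℝ} (hC : 0 < C) (j : ℕ)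
    (hIn : ∀ (k : Fin j) (x y : Bl D j), ‖x.1.1 - D.P k‖ ≤ D.w k → ‖y.1.1 - D.P k‖ ≤ D.w k →
      ∃ L, IsLen (atl D j) x y L ∧ L ≤ C * dist x y)
    (x y : Bl D j) (h : ¬ ∃ k : Fin j, ‖x.1.1 - D.P k‖ < D.w k ∧ ‖y.1.1 - D.P k‖ < D.w k) :
    ∃ Z : E4, (∀ k < j, D.w k ≤ ‖Z - D.P k‖) ∧ ‖x.1.1 - Z‖ ≤ ‖x.1.1 - y.1.1‖ ∧
      ∃ L, IsLen (atl D j) x (psi0 D j Z) L ∧ L ≤ C * (5 * dist x y) := by
  by_cases hx : ∃ k : Fin j, ‖x.1.1 - D.P k‖ < D.w k
  · obtain ⟨k, hk⟩ := hx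
    have hw := D.w_pos k
    have hy : D.w k ≤ ‖y.1.1 - D.P k‖ := by
      by_contra h1
      exact h ⟨k, hk, not_le.1 h1⟩
    obtain ⟨Z, hZ, hXZ, hYZ⟩ := exists_sphere hk.le hy
    have hZne : Z - D.P k ≠ 0 := by
      intro h1
      rw [h1, norm_zero] at hZ
      exact hw.ne hZ
    have hYne : y.1.1 - D.P k ≠ 0 := by
      intro h1
      rw [h1, norm_zero] at hy
      linarith
    have hdn : 0 ≤ dist x y := dist_nonneg
    have h1 := dist_fst_le D x y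
    have hdist : dist x (psi0 D j Z) ≤ 5 * dist x y := by
      refine dist_le_of D _ _ (by linarith) ?_ ?_
      · show ‖x.1.1 - Z‖ ≤ _
        linarith
      · intro l
        show ‖x.1.2 l - D.w l • hd (Z - D.P l)‖ ≤ _
        have hwl := D.w_pos l
        by_cases hl : l = k
        · subst hl
          have e1 : y.1.2 l = D.w l • hopf (y.1.1 - D.P l) := by
            rw [second_of_ne D y l (sub_ne_zero.1 hYne), hd_of_ne hYne]
          have h2 := dist_snd_le D x y l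
          have h3 := hHPL.2.1 (Z - D.P l) (y.1.1 - D.P l) hZne hYne
          have e2 : (Z - D.P l) - (y.1.1 - D.P l) = -(y.1.1 - Z) := by abel
          rw [e2, norm_neg, hZ] at h3
          have h4 : ‖D.w l • hopf (y.1.1 - D.P l) - D.w l • hopf (Z - D.P l)‖ ≤
              4 * ‖y.1.1 - Z‖ := by
            rw [← smul_sub, norm_smul, Real.norm_of_nonneg hwl.le, norm_sub_rev]
            calc D.w l * ‖hopf (Z - D.P l) - hopf (y.1.1 - D.P l)‖
                ≤ D.w l * (4 * ‖y.1.1 - Z‖ / D.w l) := mul_le_mul_of_nonneg_left h3 hwl.le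
              _ = 4 * ‖y.1.1 - Z‖ := by field_simp
          rw [hd_of_ne hZne]
          have h5 : ‖x.1.2 l - D.w l • hopf (Z - D.P l)‖ ≤ ‖x.1.2 l - y.1.2 l‖ +
              ‖y.1.2 l - D.w l • hopf (Z - D.P l)‖ := norm_sub_le_norm_sub_add_norm_sub _ _ _
          rw [e1] at h5 h2
          linarith
        · have hl' : (l : ℕ) ≠ k := fun h' => hl (Fin.ext h')
          have h2 : ‖x.1.1 - D.P k‖ < 8 * D.w k := by linarith
          have h3 : ‖Z - D.P k‖ < 8 * D.w k := by rw [hZ]; linarith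
          have hx' := far_ne D hl' h2
          have hz' := far_ne D hl' h3
          have h4 := far D hl' h2
          have h5 := hHPL.2.1 (x.1.1 - D.P l) (Z - D.P l) (sub_ne_zero.2 hx') (sub_ne_zero.2 hz')
          have e2 : (x.1.1 - D.P l) - (Z - D.P l) = x.1.1 - Z := by abel
          rw [e2] at h5
          rw [second_of_ne D x l hx', hd_of_ne (sub_ne_zero.2 hx'), hd_of_ne (sub_ne_zero.2 hz'),
            ← smul_sub, norm_smul, Real.norm_of_nonneg hwl.le]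
          have h6 : D.w l ≤ ‖x.1.1 - D.P l‖ := by linarith
          have h7 : 0 < ‖x.1.1 - D.P l‖ := by linarith
          calc D.w l * ‖hopf (x.1.1 - D.P l) - hopf (Z - D.P l)‖
              ≤ ‖x.1.1 - D.P l‖ * (4 * ‖x.1.1 - Z‖ / ‖x.1.1 - D.P l‖) :=
                mul_le_mul h6 h5 (norm_nonneg _) h7.le
            _ = 4 * ‖x.1.1 - Z‖ := by field_simp
            _ ≤ 5 * dist x y := by linarith
    refine ⟨Z, fun l hl => ?_, hXZ, ?_⟩
    · by_cases hlk : l = k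
      · rw [hlk, hZ]
      · have := far D (k := k) (l := l) hlk (X := Z) (by rw [hZ]; linarith)
        have := D.w_pos l
        linarith
    · obtain ⟨L, hL, hL'⟩ := hIn k x (psi0 D j Z) hk.le hZ.le
      exact ⟨L, hL, hL'.trans (mul_le_mul_of_nonneg_left hdist hC.le)⟩
  · push Not at hx
    refine ⟨x.1.1, fun k hk => hx ⟨k, hk⟩, by simp, 0, ?_, by positivity⟩
    have hx' : x.1.1 ∈ U0 D j := by
      intro k hk h1
      have h2 := hx ⟨k, hk⟩
      have h3 := D.w_pos k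
      rw [h1] at h2
      simp at h2
      linarith
    rw [(hPSI D j).2.2.1 x hx']
    exact IsLen.nil x

/-- **UB** -/
theorem ub (hOUT : OutStmt) (hINB : InbStmt) (hHPL : HplStmt) (hPSI : PsiStmt)
    (hLEN : LenStmt) : UbStmt := by
  intro D
  obtain ⟨C1, hC1, hI⟩ := hINB D
  obtain ⟨C2, hC2, hO⟩ := hOUT D
  refine ⟨10 * C1 + 3 * C2, by positivity, fun j x y => ?_⟩
  obtain ⟨ht, hs, -⟩ := hLEN (Bl D j) (atl D j)
  by_cases h : ∃ k : Fin j, ‖x.1.1 - D.P k‖ < D.w k ∧ ‖y.1.1 - D.P k‖ < D.w k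
  · obtain ⟨k, h1, h2⟩ := h
    obtain ⟨L, hL, hL'⟩ := hI j k x y h1.le h2.le
    refine ⟨L, hL, hL'.trans (mul_le_mul_of_nonneg_right ?_ dist_nonneg)⟩
    linarith
  · have h' : ¬ ∃ k : Fin j, ‖y.1.1 - D.P k‖ < D.w k ∧ ‖x.1.1 - D.P k‖ < D.w k := by
      rintro ⟨k, h1, h2⟩
      exact h ⟨k, h2, h1⟩
    obtain ⟨Z, hZ, hXZ, L1, hL1, hL1'⟩ := exit D hHPL hPSI hC1 j (hI j) x y h
    obtain ⟨Z', hZ', hYZ, L3, hL3, hL3'⟩ := exit D hHPL hPSI hC1 j (hI j) y x h'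
    obtain ⟨L2, hL2, hL2'⟩ := hO j Z Z' hZ hZ'
    refine ⟨L1 + (L2 + L3), ht _ _ _ _ _ hL1 (ht _ _ _ _ _ hL2 (hs _ _ _ hL3)), ?_⟩
    have h1 := dist_fst_le D x y
    have h2 : ‖y.1.1 - x.1.1‖ = ‖x.1.1 - y.1.1‖ := norm_sub_rev _ _
    have h3 : ‖Z - Z'‖ ≤ 3 * dist x y := by
      have e : Z - Z' = (-(x.1.1 - Z) + (x.1.1 - y.1.1)) + (y.1.1 - Z') := by abel
      rw [e]
      refine (norm_add_le _ _).trans ?_
      have := norm_add_le (-(x.1.1 - Z)) (x.1.1 - y.1.1)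
      rw [norm_neg] at this
      rw [h2] at hYZ
      linarith
    rw [dist_comm y x] at hL3'
    have h4 : C2 * ‖Z - Z'‖ ≤ C2 * (3 * dist x y) := mul_le_mul_of_nonneg_left h3 hC2.le
    linarith

end Pool.Agent.RLim.H4
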